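import Pool.Agent.U860.AV.Def
import Pool.Agent.Y667.BKP.Main

/-!
# Abelian varieties isogenous to products of elliptic curves
-/

set_option autoImplicit false

open WeierstrassCurve

namespace Pool.Agent.U860.AV

open Pool.Agent.TH841.SH.D (Pt act Gal Coch IsCoc IsCob LocTriv cob)
open Pool.Agent.TH841.NF.D (Sha shaCoc IsShaCoc)

section

variable {K : Type} [Field K] {n : ℕ} {E : Fin n → WeierstrassCurve K} (G : Ker E)

lemma actP_apply {F L : Type} [Field F] [Field L] [Algebra K F] [Algebra K L] (φ : F →ₐ[K] L)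
    (P : PP E F) (i : Fin n) : actP E φ P i = act (E i) φ (P i) := rfl

lemma add_apply' {L : Type} [Field L] [Algebra K L] (P Q : PP E L) (i : Fin n) :
    (P + Q) i = P i + Q i := rfl

lemma sub_apply' {L : Type} [Field L] [Algebra K L] (P Q : PP E L) (i : Fin n) :
    (P - Q) i = P i - Q i := by
  rw [sub_eq_add_neg, sub_eq_add_neg]
  rfl

lemma nsmul_apply' {L : Type} [Field L] [Algebra K L] (m : ℕ) (P : PP E L) (i : Fin n) :
    (m • P) i = m • P i := by
  induction m with
  | zero => rw [zero_smul, zero_smul]; rfl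
  | succ m ih => rw [succ_nsmul, succ_nsmul, add_apply', ih]

/-- `Γ` is killed by `N` -/
def Kills (N : ℕ) : Prop := ∀ g ∈ G.Γ, N • g = 0

variable {G} {N : ℕ} (hN : Kills G N)

/-- the map `A → E_1 × … × E_n` induced by the multiplication by `N` -/
noncomputable def mulN : Pts G →+ PP E (AlgebraicClosure K) :=
  QuotientAddGroup.lift G.Γ (nsmulAddMonoidHom N) (fun g hg => hN g hg)

lemma mulN_mk (b : PP E (AlgebraicClosure K)) :
    mulN hN (QuotientAddGroup.mk b : Pts G) = N • b := rfl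

lemma mk_mulN (x : Pts G) : (QuotientAddGroup.mk (mulN hN x) : Pts G) = N • x := by
  obtain ⟨b, rfl⟩ := QuotientAddGroup.mk_surjective x
  rw [mulN_mk, QuotientAddGroup.mk_nsmul]

lemma gact_mk (σ : Gal K) (b : PP E (AlgebraicClosure K)) :
    gact G σ (QuotientAddGroup.mk b) = QuotientAddGroup.mk (actP E σ.toAlgHom b) := rfl

lemma mulN_gact (σ : Gal K) (x : Pts G) :
    mulN hN (gact G σ x) = actP E σ.toAlgHom (mulN hN x) := by
  obtain ⟨b, rfl⟩ := QuotientAddGroup.mk_surjective x
  rw [gact_mk, mulN_mk, mulN_mk, map_nsmul]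

include hN in
lemma kills_map {L : Type} [Field L] [Algebra K L]
    (ι : AlgebraicClosure K →ₐ[K] AlgebraicClosure L) :
    ∀ g ∈ G.Γ.map (actP E ι), N • g = 0 := by
  rintro _ ⟨g, hg, rfl⟩
  rw [← map_nsmul, hN g hg, map_zero]

/-- the multiplication by `N` over the algebraic closure of `L` -/
noncomputable def mulL {L : Type} [Field L] [Algebra K L]
    (ι : AlgebraicClosure K →ₐ[K] AlgebraicClosure L) :
    PP E (AlgebraicClosure L) ⧸ (G.Γ.map (actP E ι)) →+ PP E (AlgebraicClosure L) :=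
  QuotientAddGroup.lift _ (nsmulAddMonoidHom N) (fun g hg => kills_map hN ι g hg)

lemma mulL_mk {L : Type} [Field L] [Algebra K L]
    (ι : AlgebraicClosure K →ₐ[K] AlgebraicClosure L) (b : PP E (AlgebraicClosure L)) :
    mulL hN ι (QuotientAddGroup.mk b) = N • b := rfl

lemma mulL_toL {L : Type} [Field L] [Algebra K L]
    (ι : AlgebraicClosure K →ₐ[K] AlgebraicClosure L) (x : Pts G) :
    mulL hN ι (toL G L ι x) = actP E ι (mulN hN x) := by
  obtain ⟨b, rfl⟩ := QuotientAddGroup.mk_surjective x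
  have h : toL G L ι (QuotientAddGroup.mk b) = QuotientAddGroup.mk (actP E ι b) := rfl
  rw [h, mulL_mk, mulN_mk, map_nsmul]

/-- the components of `N • f` are cocycles -/
lemma coc_comp {f : CochA G} (hf : IsCocA G f) (i : Fin n) :
    IsCoc (E i) (fun σ => mulN hN (f σ) i) := by
  refine ⟨hf.1.comp (fun x => mulN hN x i), fun σ τ => ?_⟩
  show mulN hN (f (σ * τ)) i = _
  rw [hf.2, map_add, mulN_gact]
  rfl

lemma loc_comp {L : Type} [Field L] [Algebra K L] {f : CochA G} (hf : LocTrivA G L f)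
    (i : Fin n) : LocTriv (E i) L (fun σ => mulN hN (f σ) i) := by
  intro ι
  obtain ⟨R, hR⟩ := hf ι
  refine ⟨(N • R) i, fun τ σ h => ?_⟩
  have h1 := congrArg (mulL hN ι) (hR τ σ h)
  rw [mulL_toL, mulL_mk] at h1
  have h2 := congrFun h1 i
  show actP E ι (mulN hN (f σ)) i = _
  rw [h2, nsmul_apply', sub_apply', smul_sub, nsmul_apply', map_nsmul]
  rfl

end

section

variable {K : Type} [Field K] [NumberField K] {n : ℕ} {E : Fin n → WeierstrassCurve K} {G : Ker E}
  {N : ℕ}

/-- **`Ш` of the abelian variety.** -/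
theorem sha_killed (hN : Kills G N) (p M : ℕ)
    (hsha : ∀ i, ∀ (j : ℕ) (s : Sha (E i)), p ^ j • s = 0 → M • s = 0) (j : ℕ) (x : ShaA G)
    (hx : p ^ j • x = 0) : (M * N) • x = 0 := by
  obtain ⟨⟨f, hf⟩, rfl⟩ := QuotientAddGroup.mk_surjective x
  -- `p ^ j • f` is a coboundary
  have h1 : (p ^ j • (⟨f, hf⟩ : shaCocA G)) ∈ (cobA G).addSubgroupOf (shaCocA G) := by
    refine (QuotientAddGroup.eq_zero_iff _).1 ?_
    rw [QuotientAddGroup.mk_nsmul]
    exact hx
  have h2 : IsCobA G ((p ^ j • (⟨f, hf⟩ : shaCocA G) : shaCocA G) : CochA G) := h1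
  rw [AddSubgroup.coe_nsmul] at h2
  obtain ⟨P, hP⟩ := h2
  have hP' : ∀ σ, p ^ j • f σ = gact G σ P - P := hP
  -- the components
  have hcomp : ∀ i, IsShaCoc (E i) (fun σ => mulN hN (f σ) i) := fun i =>
    ⟨coc_comp hN hf.1 i, fun v => loc_comp hN (hf.2.1 v) i, fun v => loc_comp hN (hf.2.2 v) i⟩
  have hR : ∀ i, ∃ R : Pt (E i) (AlgebraicClosure K), ∀ σ : Gal K,
      M • (mulN hN (f σ) i) = act (E i) σ.toAlgHom R - R := by
    intro i
    let F : shaCoc (E i) := ⟨fun σ => mulN hN (f σ) i, hcomp i⟩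
    have h3 : (p ^ j • F) ∈ (cob (E i)).addSubgroupOf (shaCoc (E i)) := by
      have h4 : IsCob (E i) ((p ^ j • F : shaCoc (E i)) : Coch (E i)) := by
        rw [AddSubgroup.coe_nsmul]
        refine ⟨mulN hN P i, fun σ => ?_⟩
        show p ^ j • (mulN hN (f σ) i) = _
        have h5 := congrArg (fun x => mulN hN x i) (hP' σ)
        have h6 : mulN hN (p ^ j • f σ) i = mulN hN (gact G σ P - P) i := h5
        rw [map_nsmul, map_sub, mulN_gact, nsmul_apply', sub_apply'] at h6
        exact h6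
      exact h4
    have h7 : p ^ j • (QuotientAddGroup.mk F : Sha (E i)) = 0 := by
      have := (QuotientAddGroup.eq_zero_iff _).2 h3
      rw [QuotientAddGroup.mk_nsmul] at this
      exact this
    have h8 := hsha i j _ h7
    have h9 : (M • F) ∈ (cob (E i)).addSubgroupOf (shaCoc (E i)) := by
      refine (QuotientAddGroup.eq_zero_iff _).1 ?_
      rw [QuotientAddGroup.mk_nsmul]
      exact h8
    have h10 : IsCob (E i) ((M • F : shaCoc (E i)) : Coch (E i)) := h9
    rw [AddSubgroup.coe_nsmul] at h10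
    obtain ⟨R, hR⟩ := h10
    exact ⟨R, hR⟩
  choose R hR using hR
  let R' : PP E (AlgebraicClosure K) := R
  have h11 : ((M * N) • (⟨f, hf⟩ : shaCocA G)) ∈ (cobA G).addSubgroupOf (shaCocA G) := by
    have h12 : IsCobA G (((M * N) • (⟨f, hf⟩ : shaCocA G) : shaCocA G) : CochA G) := by
      rw [AddSubgroup.coe_nsmul]
      refine ⟨QuotientAddGroup.mk R', fun σ => ?_⟩
      show (M * N) • f σ = _
      have h13 : M • mulN hN (f σ) = actP E σ.toAlgHom R' - R' := by
        funext i
        rw [nsmul_apply', sub_apply', hR i σ]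
        rfl
      rw [mul_smul, ← mk_mulN hN, ← QuotientAddGroup.mk_nsmul, h13, gact_mk,
        QuotientAddGroup.mk_sub]
    exact h12
  have h14 := (QuotientAddGroup.eq_zero_iff _).2 h11
  rw [QuotientAddGroup.mk_nsmul] at h14
  exact h14

open scoped Classical in
/-- **the rational points of the abelian variety.** -/
theorem rat_killed (hN : Kills G N) (m : ℕ) (hfin : ∀ i, Finite (E i).toAffine.Point)
    (hm : ∀ i, Nat.card (E i).toAffine.Point ∣ m) (x : Pts G) (hx : x ∈ rat G) : (m * N) • x = 0 := by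
  have h1 : ∀ i, m • (mulN hN x i) = 0 := by
    intro i
    have h2 : ∀ σ : Gal K, act (E i) σ.toAlgHom (mulN hN x i) = mulN hN x i := by
      intro σ
      have h3 := mulN_gact hN σ x
      rw [hx σ] at h3
      exact (congrFun h3 i).symm
    obtain ⟨φ, -, -, hφ⟩ := Pool.Agent.Y667.BKP.exists_rat (E i)
    obtain ⟨q, hq⟩ := hφ _ h2
    have := hfin i
    obtain ⟨t, ht⟩ := hm i
    have h5 : m • q = 0 := by
      rw [ht, mul_comm, mul_smul, card_nsmul_eq_zero', smul_zero]
    rw [← hq, ← map_nsmul, h5, map_zero]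
  have h4 : m • mulN hN x = 0 := by
    funext i
    rw [nsmul_apply']
    exact h1 i
  rw [mul_smul, ← mk_mulN hN, ← QuotientAddGroup.mk_nsmul, h4, QuotientAddGroup.mk_zero]

end

end Pool.Agent.U860.AV
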