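import Pool.Agent.U860.AV.Main

/-!
# The Bloch–Kato Selmer group of an abelian variety isogenous to a product of elliptic curves

`A = (E_1 × … × E_n) / Γ` as in `Pool.Agent.U860.AV.Def`. `V_p A = T_p A ⊗ ℚ_p` is described by sequences of
points of `A`, as in `Pool.Agent.Y667.BKP.Def` (helper667) for elliptic curves.
-/

set_option autoImplicit false

open WeierstrassCurve

namespace Pool.Agent.U860.AV

open Pool.Agent.TH841.SH.D (Pt act Gal)
open Pool.Agent.Y667.BKP (PSeq IsV Coch2 IsCocV IsCobV LocKum IsSelV selCocV cobV H1f)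

section

variable {K : Type} [Field K] {n : ℕ} {E : Fin n → WeierstrassCurve K} (G : Ker E)

/-- The rational Tate module `V_p(A) = T_p(A) ⊗ ℚ_p`: the sequences `x₀, x₁, …` of points of `A` over
the algebraic closure, of `p`-power order, with `p x_{k+1} = x_k` (`x_k` is the class of `p⁻ᵏ x` in
`V_p(A) / T_p(A) = A[p ^ ∞]`). -/
def IsVA (p : ℕ) (x : ℕ → Pts G) : Prop :=
  ∀ k, p • x (k + 1) = x k ∧ ∃ m : ℕ, (p ^ m : ℕ) • x k = 0

/-- `c` is a continuous cocycle with values in `V_p(A)`: each coordinate is locally constant, and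
`c (σ τ) = c σ + σ (c τ)`. -/
def IsCocVA (p : ℕ) (c : Gal K → ℕ → Pts G) : Prop :=
  (∀ k, IsLocallyConstant fun σ => c σ k) ∧ (∀ σ, IsVA G p (c σ)) ∧
    ∀ (σ τ : Gal K) (k : ℕ), c (σ * τ) k = c σ k + gact G σ (c τ k)

/-- `c` is a coboundary: `c σ = σ x - x` with `x` in `V_p(A)`. -/
def IsCobVA (p : ℕ) (c : Gal K → ℕ → Pts G) : Prop :=
  ∃ x : ℕ → Pts G, IsVA G p x ∧ ∀ (σ : Gal K) (k : ℕ), c σ k = gact G σ (x k) - x k

/-- The restriction of `c` to the absolute Galois group of the extension `L` of `K` is in the image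
of the Kummer map of `L`: there is a sequence `Q₀, Q₁, …` of points of `A` over the algebraic closure of
`L` (`Q_k` is the class of the point `R k` of the product) with `p Q_{k+1} = Q_k` such that
`(c τ)_k = τ Q_k - Q_k` for all `k` and `τ`. -/
def LocKumA (p : ℕ) (L : Type) [Field L] [Algebra K L] (c : Gal K → ℕ → Pts G) : Prop :=
  ∀ ι : AlgebraicClosure K →ₐ[K] AlgebraicClosure L, ∃ R : ℕ → PP E (AlgebraicClosure L),
    (∀ k, (QuotientAddGroup.mk (p • R (k + 1)) :
      PP E (AlgebraicClosure L) ⧸ (G.Γ.map (actP E ι))) = QuotientAddGroup.mk (R k)) ∧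
    ∀ (τ : Gal L) (σ : Gal K), (∀ x, τ (ι x) = ι (σ x)) → ∀ k,
      toL G L ι (c σ k) =
        QuotientAddGroup.mk (actP E (τ.toAlgHom.restrictScalars K) (R k) - R k)

variable {G} {N : ℕ} (hN : Kills G N) {p : ℕ}

lemma cocV_comp {c : Gal K → ℕ → Pts G} (hc : IsCocVA G p c) (i : Fin n) :
    IsCocV p (E i) (fun σ k => mulN hN (c σ k) i) := by
  obtain ⟨h1, h2, h3⟩ := hc
  refine ⟨fun k => (h1 k).comp (fun x => mulN hN x i), fun σ k => ?_, fun σ τ k => ?_⟩
  · obtain ⟨h4, m, h5⟩ := h2 σ k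
    refine ⟨?_, m, ?_⟩
    · show p • (mulN hN (c σ (k + 1)) i) = mulN hN (c σ k) i
      rw [← nsmul_apply', ← map_nsmul, h4]
    · show (p ^ m : ℕ) • (mulN hN (c σ k) i) = 0
      rw [← nsmul_apply', ← map_nsmul, h5, map_zero]
      rfl
  · show mulN hN (c (σ * τ) k) i = mulN hN (c σ k) i + act (E i) σ.toAlgHom (mulN hN (c τ k) i)
    rw [h3, map_add, mulN_gact]
    rfl

lemma locKum_comp {L : Type} [Field L] [Algebra K L] {c : Gal K → ℕ → Pts G}
    (hc : LocKumA G p L c) (i : Fin n) : LocKum p (E i) L (fun σ k => mulN hN (c σ k) i) := by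
  intro ι
  obtain ⟨R, hR, hc'⟩ := hc ι
  refine ⟨fun k => (N • R k) i, fun k => ?_, fun τ σ h k => ?_⟩
  · have h1 := congrArg (mulL hN ι) (hR k)
    rw [mulL_mk, mulL_mk] at h1
    have h2 := congrFun h1 i
    show p • ((N • R (k + 1)) i) = (N • R k) i
    rw [← h2, ← nsmul_apply', smul_comm]
  · have h1 := congrArg (mulL hN ι) (hc' τ σ h k)
    rw [mulL_toL, mulL_mk] at h1
    have h2 := congrFun h1 i
    show actP E ι (mulN hN (c σ k)) i =
      act (E i) (τ.toAlgHom.restrictScalars K) ((N • R k) i) - (N • R k) i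
    rw [h2, nsmul_apply', sub_apply', smul_sub, nsmul_apply', map_nsmul]
    rfl

end

section divide

variable {M : Type} [AddCommGroup M]

lemma div_ex {p N : ℕ} (h : N.Coprime p) {a : M} {m : ℕ} (ha : (p ^ m : ℕ) • a = 0) :
    ∃ b : M, N • b = a ∧ (p ^ m : ℕ) • b = 0 := by
  have h1 := Nat.gcd_eq_gcd_ab N (p ^ m)
  rw [Nat.Coprime.pow_right m h] at h1
  refine ⟨Nat.gcdA N (p ^ m) • a, ?_, ?_⟩
  · rw [← natCast_zsmul, smul_smul]
    have h2 : (N : ℤ) * Nat.gcdA N (p ^ m) = 1 - Nat.gcdB N (p ^ m) * ((p ^ m : ℕ) : ℤ) := by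
      rw [Nat.cast_one] at h1
      linear_combination -h1
    rw [h2, sub_smul, one_smul, mul_smul, natCast_zsmul, ha, smul_zero, sub_zero]
  · rw [smul_comm, ha, smul_zero]

lemma div_inj {p N : ℕ} (h : N.Coprime p) {a : M} {m : ℕ} (ha : (p ^ m : ℕ) • a = 0)
    (h0 : N • a = 0) : a = 0 := by
  have h1 := Nat.gcd_eq_gcd_ab N (p ^ m)
  rw [Nat.Coprime.pow_right m h, Nat.cast_one] at h1
  have h2 : a = ((N : ℤ) * Nat.gcdA N (p ^ m) + ((p ^ m : ℕ) : ℤ) * Nat.gcdB N (p ^ m)) • a := by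
    rw [← h1, one_smul]
  rw [h2, add_smul, mul_comm (N : ℤ), mul_comm ((p ^ m : ℕ) : ℤ), mul_smul, mul_smul,
    natCast_zsmul, natCast_zsmul, h0, ha, smul_zero, smul_zero, add_zero]

/-- a sequence in the rational Tate module of `M` -/
def VS (p : ℕ) (x : ℕ → M) : Prop := ∀ k, p • x (k + 1) = x k ∧ ∃ m : ℕ, (p ^ m : ℕ) • x k = 0

lemma vs_shift {p : ℕ} {x : ℕ → M} (hx : VS p x) (s k : ℕ) : (p ^ s : ℕ) • x (k + s) = x k := by
  induction s with
  | zero => rw [pow_zero, one_smul, Nat.add_zero]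
  | succ s ih =>
    rw [pow_succ, mul_smul, show k + (s + 1) = (k + s) + 1 by ring, (hx _).1, ih]

lemma vs_div {p : ℕ} (hp : p.Prime) {N : ℕ} (hN : 0 < N) {x : ℕ → M} (hx : VS p x) :
    ∃ y : ℕ → M, VS p y ∧ ∀ k, N • y k = x k := by
  obtain ⟨s, N', hN', rfl⟩ := Nat.exists_eq_pow_mul_and_not_dvd hN.ne' p hp.ne_one
  have hco : N'.Coprime p := ((Nat.Prime.coprime_iff_not_dvd hp).2 hN').symm
  have h1 : ∀ k, ∃ b : M, N' • b = x (k + s) ∧ ∃ m : ℕ, (p ^ m : ℕ) • b = 0 := by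
    intro k
    obtain ⟨m, hm⟩ := (hx (k + s)).2
    obtain ⟨b, hb, hb'⟩ := div_ex hco hm
    exact ⟨b, hb, m, hb'⟩
  choose y hy hy' using h1
  refine ⟨y, fun k => ⟨?_, hy' k⟩, fun k => ?_⟩
  · obtain ⟨m, hm⟩ := hy' k
    obtain ⟨l, hl⟩ := hy' (k + 1)
    refine sub_eq_zero.1 (div_inj hco (m := m + l) ?_ ?_)
    · rw [smul_sub, smul_comm, pow_add, mul_smul, hl, smul_zero, smul_zero, mul_comm, mul_smul, hm,
        smul_zero, sub_zero]
    · rw [smul_sub, smul_comm, hy, hy, show k + 1 + s = (k + s) + 1 by ring, (hx _).1, sub_self]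
  · rw [mul_smul, hy, vs_shift hx]

lemma vs_inj {p : ℕ} (hp : p.Prime) {N : ℕ} (hN : 0 < N) {x : ℕ → M} (hx : VS p x)
    (h0 : ∀ k, N • x k = 0) (k : ℕ) : x k = 0 := by
  obtain ⟨s, N', hN', rfl⟩ := Nat.exists_eq_pow_mul_and_not_dvd hN.ne' p hp.ne_one
  have hco : N'.Coprime p := ((Nat.Prime.coprime_iff_not_dvd hp).2 hN').symm
  obtain ⟨m, hm⟩ := (hx k).2
  refine div_inj hco hm ?_
  have h1 := h0 (k + s)
  rw [mul_comm, mul_smul, vs_shift hx] at h1
  exact h1

end divide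

section

variable {K : Type} [Field K] [NumberField K] {n : ℕ} {E : Fin n → WeierstrassCurve K} (G : Ker E)

/-- `c` is a continuous cocycle with values in `V_p(A)` whose restriction to the completions at all
the places of `K` is in the image of the local Kummer map -/
def IsSelVA (p : ℕ) (c : Gal K → ℕ → Pts G) : Prop :=
  IsCocVA G p c ∧
  (∀ v : IsDedekindDomain.HeightOneSpectrum (NumberField.RingOfIntegers K),
    LocKumA G p (v.adicCompletion K) c) ∧
  ∀ v : NumberField.InfinitePlace K, LocKumA G p v.Completion c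

variable {G} {N p : ℕ}

lemma cob_of (W : WeierstrassCurve K) (h0 : ∀ x : H1f p W, x = 0) {c : Coch2 W}
    (hc : IsSelV p W c) : IsCobV p W c := by
  have h1 := h0 (QuotientAddGroup.mk (⟨c, hc⟩ : selCocV p W))
  have h2 := (QuotientAddGroup.eq_zero_iff _).1 h1
  exact h2

/-- **the Bloch–Kato Selmer group of the abelian variety is zero** -/
theorem h1fA_zero (hN : Kills G N) (hN0 : 0 < N) (hp : p.Prime)
    (h0 : ∀ i, ∀ x : H1f p (E i), x = 0) (c : Gal K → ℕ → Pts G) (hc : IsSelVA G p c) :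
    IsCobVA G p c := by
  have hcomp : ∀ i, IsSelV p (E i) (fun σ k => mulN hN (c σ k) i) := fun i =>
    ⟨cocV_comp hN hc.1 i, fun v => locKum_comp hN (hc.2.1 v) i,
      fun v => locKum_comp hN (hc.2.2 v) i⟩
  have h1 : ∀ i, ∃ x : PSeq (E i), IsV p (E i) x ∧ ∀ (σ : Gal K) (k : ℕ),
      mulN hN (c σ k) i = act (E i) σ.toAlgHom (x k) - x k := fun i => cob_of (E i) (h0 i) (hcomp i)
  choose x hx hx' using h1
  let X : ℕ → PP E (AlgebraicClosure K) := fun k i => x i k
  have hX : ∀ (σ : Gal K) (k : ℕ), mulN hN (c σ k) = actP E σ.toAlgHom (X k) - X k := by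
    intro σ k
    funext i
    rw [sub_apply', hx']
    rfl
  have hXV : VS p (fun k => (QuotientAddGroup.mk (X k) : Pts G)) := by
    intro k
    have h2 : p • X (k + 1) = X k := by
      funext i
      rw [nsmul_apply']
      exact (hx i k).1
    refine ⟨?_, ?_⟩
    · show p • (QuotientAddGroup.mk (X (k + 1)) : Pts G) = QuotientAddGroup.mk (X k)
      rw [← QuotientAddGroup.mk_nsmul, h2]
    · choose m hm using fun i => (hx i k).2
      refine ⟨∑ i, m i, ?_⟩
      have h3 : (p ^ (∑ i, m i) : ℕ) • X k = 0 := by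
        funext i
        rw [nsmul_apply']
        have h4 : p ^ (∑ i, m i) = p ^ (∑ i, m i - m i) * p ^ (m i) := by
          rw [← pow_add, Nat.sub_add_cancel (Finset.single_le_sum (f := m)
            (fun _ _ => Nat.zero_le _) (Finset.mem_univ i))]
        rw [h4, mul_smul]
        have h5 : (p ^ m i : ℕ) • X k i = 0 := hm i
        rw [h5, smul_zero]
        rfl
      show (p ^ (∑ i, m i) : ℕ) • (QuotientAddGroup.mk (X k) : Pts G) = 0
      rw [← QuotientAddGroup.mk_nsmul, h3, QuotientAddGroup.mk_zero]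
  obtain ⟨y, hyV, hy⟩ := vs_div hp hN0 hXV
  refine ⟨y, hyV, fun σ k => ?_⟩
  have h6 : VS p (fun k => c σ k - (gact G σ (y k) - y k)) := by
    intro k
    obtain ⟨h7, m, hm⟩ := hc.1.2.1 σ k
    obtain ⟨h8, l, hl⟩ := hyV k
    refine ⟨?_, m + l, ?_⟩
    · show p • (c σ (k + 1) - (gact G σ (y (k + 1)) - y (k + 1))) = _
      rw [smul_sub, smul_sub, h7, ← map_nsmul, h8]
    · show (p ^ (m + l) : ℕ) • (c σ k - (gact G σ (y k) - y k)) = 0
      have e1 : (p ^ (m + l) : ℕ) • c σ k = 0 := by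
        rw [pow_add, mul_comm, mul_smul, hm, smul_zero]
      have e2 : (p ^ (m + l) : ℕ) • y k = 0 := by
        rw [pow_add, mul_smul, hl, smul_zero]
      rw [smul_sub, smul_sub, ← map_nsmul, e1, e2, map_zero, sub_zero, sub_zero]
  have h9 : ∀ k, N • (c σ k - (gact G σ (y k) - y k)) = 0 := by
    intro k
    rw [smul_sub, smul_sub, ← map_nsmul, hy, ← mk_mulN hN, hX, gact_mk, QuotientAddGroup.mk_sub,
      sub_self]
  exact sub_eq_zero.1 (vs_inj hp hN0 h6 h9 k)

/-- every element of the tensor product of a group killed by `m > 0` with `ℚ_p` is zero -/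
theorem tensor_zero' {M : Type} [AddCommGroup M] {m : ℕ} (hm : 0 < m) (h : ∀ x : M, m • x = 0)
    (p : ℕ) [Fact p.Prime] (x : TensorProduct ℤ M ℚ_[p]) : x = 0 := by
  induction x using TensorProduct.induction_on with
  | zero => rfl
  | add x y hx hy => rw [hx, hy, add_zero]
  | tmul x q =>
    have hm' : (m : ℚ_[p]) ≠ 0 := by exact_mod_cast hm.ne'
    have h1 : q = (m : ℤ) • (q / m) := by
      rw [zsmul_eq_mul]
      push_cast
      field_simp
    rw [h1, ← TensorProduct.smul_tmul, natCast_zsmul, h x, TensorProduct.zero_tmul]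

end

end Pool.Agent.U860.AV
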