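import Pool.Agent.TH841.NF.ShaN

/-!
# The Tate-Shafarevich group of an abelian variety isogenous to a product of elliptic curves

An abelian variety `A` over a number field `K` which is isogenous to `E_1 × … × E_n` is a quotient
`(E_1 × … × E_n) / Γ` by a finite subgroup scheme `Γ`, that is (in characteristic zero) by a finite
subgroup `Γ` of the group of the points over the algebraic closure which is stable under the absolute
Galois group. For an extension `L` of `K` with algebraic closure `L'` one has
`A(L') = (E_1 × … × E_n)(L') / ι Γ` for every embedding `ι` of the algebraic closures.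
-/

set_option autoImplicit false

open WeierstrassCurve

namespace Pool.Agent.U860.AV

open Pool.Agent.TH841.SH.D (Pt act Gal Coch IsCoc IsCob LocTriv cob)

section

variable {K : Type} [Field K] {n : ℕ}

/-- the points of the product of the curves over the field `L` -/
def PP (E : Fin n → WeierstrassCurve K) (L : Type) [Field L] [Algebra K L] : Type :=
  (i : Fin n) → Pt (E i) L

noncomputable instance PP.group (E : Fin n → WeierstrassCurve K) (L : Type) [Field L]
    [Algebra K L] : AddCommGroup (PP E L) :=
  @Pi.addCommGroup (Fin n) (fun i => Pt (E i) L) (fun i => Pt.group (E i) L)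

/-- the map on points given by a homomorphism of fields -/
noncomputable def actP (E : Fin n → WeierstrassCurve K) {F L : Type} [Field F] [Field L]
    [Algebra K F] [Algebra K L] (φ : F →ₐ[K] L) : PP E F →+ PP E L where
  toFun P i := act (E i) φ (P i)
  map_zero' := by
    funext i
    exact map_zero (act (E i) φ)
  map_add' P Q := by
    funext i
    exact map_add (act (E i) φ) (P i) (Q i)

/-- a finite subgroup of the points over the algebraic closure, stable under the Galois group -/
structure Ker (E : Fin n → WeierstrassCurve K) where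
  Γ : AddSubgroup (PP E (AlgebraicClosure K))
  fin : Finite Γ
  stab : ∀ (σ : Gal K), ∀ g ∈ Γ, actP E σ.toAlgHom g ∈ Γ

variable {E : Fin n → WeierstrassCurve K} (G : Ker E)

/-- the points of `A = (E_1 × … × E_n) / Γ` over the algebraic closure -/
abbrev Pts : Type := PP E (AlgebraicClosure K) ⧸ G.Γ

/-- the Galois action on the points of `A` -/
noncomputable def gact (σ : Gal K) : Pts G →+ Pts G :=
  QuotientAddGroup.map G.Γ G.Γ (actP E σ.toAlgHom) (fun g hg => G.stab σ g hg)

/-- the group of the rational points of `A` -/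
def rat : AddSubgroup (Pts G) where
  carrier := {x | ∀ σ : Gal K, gact G σ x = x}
  zero_mem' := fun σ => map_zero _
  add_mem' := fun {x y} hx hy σ => by rw [map_add, hx σ, hy σ]
  neg_mem' := fun {x} hx σ => by rw [map_neg, hx σ]

/-- the map from the points of `A` over the algebraic closure of `K` to those over the algebraic closure
of the extension `L` -/
noncomputable def toL (L : Type) [Field L] [Algebra K L]
    (ι : AlgebraicClosure K →ₐ[K] AlgebraicClosure L) :
    Pts G →+ PP E (AlgebraicClosure L) ⧸ (G.Γ.map (actP E ι)) :=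
  QuotientAddGroup.map G.Γ (G.Γ.map (actP E ι)) (actP E ι) (AddSubgroup.le_comap_map _ _)

/-- functions on the absolute Galois group with values in the points of `A` -/
abbrev CochA : Type := Gal K → Pts G

/-- continuous cocycles -/
def IsCocA (f : CochA G) : Prop :=
  IsLocallyConstant f ∧ ∀ σ τ : Gal K, f (σ * τ) = f σ + gact G σ (f τ)

/-- coboundaries -/
def IsCobA (f : CochA G) : Prop := ∃ P : Pts G, ∀ σ : Gal K, f σ = gact G σ P - P

/-- for every embedding of the algebraic closures the restriction of `f` to the absolute Galois group of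
`L` is a coboundary with values in the points of `A` over the algebraic closure of `L`: the coboundary
of the class of a point `R` of the product -/
def LocTrivA (L : Type) [Field L] [Algebra K L] (f : CochA G) : Prop :=
  ∀ ι : AlgebraicClosure K →ₐ[K] AlgebraicClosure L, ∃ R : PP E (AlgebraicClosure L),
    ∀ (τ : Gal L) (σ : Gal K), (∀ x, τ (ι x) = ι (σ x)) →
      toL G L ι (f σ) =
        QuotientAddGroup.mk (actP E (τ.toAlgHom.restrictScalars K) R - R)

lemma cocA_zero : IsCocA G 0 :=
  ⟨IsLocallyConstant.const _, fun σ τ => by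
    change (0 : Pts G) = 0 + gact G σ 0
    rw [map_zero, add_zero]⟩

variable {G}

lemma cocA_add {f g : CochA G} (hf : IsCocA G f) (hg : IsCocA G g) : IsCocA G (f + g) :=
  ⟨hf.1.add hg.1, fun σ τ => by
    change f (σ * τ) + g (σ * τ) = f σ + g σ + gact G σ (f τ + g τ)
    rw [hf.2, hg.2, map_add]
    abel⟩

lemma cocA_neg {f : CochA G} (hf : IsCocA G f) : IsCocA G (-f) :=
  ⟨hf.1.neg, fun σ τ => by
    change -f (σ * τ) = -f σ + gact G σ (-f τ)
    rw [hf.2, map_neg]
    abel⟩

lemma cobA_add {f g : CochA G} (hf : IsCobA G f) (hg : IsCobA G g) : IsCobA G (f + g) := by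
  obtain ⟨P, hP⟩ := hf
  obtain ⟨Q, hQ⟩ := hg
  refine ⟨P + Q, fun σ => ?_⟩
  change f σ + g σ = _
  rw [hP, hQ, map_add]
  abel

lemma cobA_neg {f : CochA G} (hf : IsCobA G f) : IsCobA G (-f) := by
  obtain ⟨P, hP⟩ := hf
  refine ⟨-P, fun σ => ?_⟩
  change -f σ = _
  rw [hP, map_neg]
  abel

lemma locA_zero (L : Type) [Field L] [Algebra K L] : LocTrivA G L 0 :=
  fun ι => ⟨0, fun τ σ _ => by
    change toL G L ι 0 = _
    rw [map_zero, map_zero, sub_zero]
    rfl⟩

lemma locA_add {L : Type} [Field L] [Algebra K L] {f g : CochA G} (hf : LocTrivA G L f)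
    (hg : LocTrivA G L g) : LocTrivA G L (f + g) := by
  intro ι
  obtain ⟨P, hP⟩ := hf ι
  obtain ⟨Q, hQ⟩ := hg ι
  refine ⟨P + Q, fun τ σ h => ?_⟩
  change toL G L ι (f σ + g σ) = _
  rw [map_add, hP τ σ h, hQ τ σ h, ← QuotientAddGroup.mk_add, map_add]
  congr 1
  abel

lemma locA_neg {L : Type} [Field L] [Algebra K L] {f : CochA G} (hf : LocTrivA G L f) :
    LocTrivA G L (-f) := by
  intro ι
  obtain ⟨P, hP⟩ := hf ι
  refine ⟨-P, fun τ σ h => ?_⟩
  change toL G L ι (-f σ) = _
  rw [map_neg, hP τ σ h, ← QuotientAddGroup.mk_neg, map_neg]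
  congr 1
  abel

variable (G)

/-- the group of the coboundaries -/
def cobA : AddSubgroup (CochA G) where
  carrier := {f | IsCobA G f}
  zero_mem' := ⟨0, fun σ => by
    change (0 : Pts G) = gact G σ 0 - 0
    rw [map_zero, sub_zero]⟩
  add_mem' := cobA_add
  neg_mem' := cobA_neg

end

section

variable {K : Type} [Field K] [NumberField K] {n : ℕ} {E : Fin n → WeierstrassCurve K} (G : Ker E)

/-- a continuous cocycle that is locally trivial at all the places of `K` -/
def IsShaCocA (f : CochA G) : Prop :=
  IsCocA G f ∧
  (∀ v : IsDedekindDomain.HeightOneSpectrum (NumberField.RingOfIntegers K),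
    LocTrivA G (v.adicCompletion K) f) ∧
  ∀ v : NumberField.InfinitePlace K, LocTrivA G v.Completion f

/-- the group of the continuous cocycles that are locally trivial at all the places of `K` -/
def shaCocA : AddSubgroup (CochA G) where
  carrier := {f | IsShaCocA G f}
  zero_mem' := ⟨cocA_zero G, fun _ => locA_zero _, fun _ => locA_zero _⟩
  add_mem' := fun hf hg => ⟨cocA_add hf.1 hg.1, fun v => locA_add (hf.2.1 v) (hg.2.1 v),
    fun v => locA_add (hf.2.2 v) (hg.2.2 v)⟩
  neg_mem' := fun hf => ⟨cocA_neg hf.1, fun v => locA_neg (hf.2.1 v),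
    fun v => locA_neg (hf.2.2 v)⟩

/-- the Tate-Shafarevich group of `A` over `K` -/
def ShaA : Type := shaCocA G ⧸ (cobA G).addSubgroupOf (shaCocA G)

/-- the group law on the Tate-Shafarevich group -/
noncomputable instance ShaA.group : AddCommGroup (ShaA G) :=
  @QuotientAddGroup.Quotient.addCommGroup (shaCocA G) _ ((cobA G).addSubgroupOf (shaCocA G))

end

end Pool.Agent.U860.AV
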